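import Pool.Agent.Lib.MP_028aa5_nt.N.All
import Pool.Agent.Lib.MP_028aa5_nt.N.MalF

/-! Local uniformity of the Liouville function for nilsequences in the range `H ≥ (log X) ^ C`. -/

namespace Pool.Agent.Results.MP_028aa5_nt.NilLog

open Finset MeasureTheory Pool.Agent.Lib.MP_028aa5_nt

variable {G : Type} [Group G]

/-- The derivative `∂_h u (n) = u (n + h) * (u n)⁻¹` of a sequence. -/
def der (u : ℤ → G) (h : ℤ) : ℤ → G := fun n => u (n + h) * (u n)⁻¹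

/-- Polynomial sequences adapted to `G₀, G₁, …`: every `i`-fold derivative has values in `Gᵢ`. -/
def Adapted (Gf : ℕ → Subgroup G) (u : ℤ → G) : Prop :=
  ∀ (hs : List ℤ) (n : ℤ), hs.foldl der u n ∈ Gf hs.length

/-- The supremum of `|∑_{x < n ≤ x + H} λ(n) F(u(n) Γ)|` over all polynomial sequences `u`. -/
noncomputable def supSum (Gf : ℕ → Subgroup G) (Γ : Subgroup G) (F : G ⧸ Γ → ℂ) (H x : ℝ) : ℝ :=
  ⨆ u : {u : ℤ → G // Adapted Gf u},
    ‖∑ n ∈ Ioc ⌊x⌋₊ ⌊x + H⌋₊, ((ArithmeticFunction.liouville n : ℤ) : ℂ) * F (u.1 n : G)‖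

theorem result [TopologicalSpace G] [IsTopologicalGroup G]
    (d : ℕ) (g : Submodule ℝ (Matrix (Fin d) (Fin d) ℝ))
    (hu : ∀ X ∈ g, ∀ i j, j ≤ i → X i j = 0) (hb : ∀ X ∈ g, ∀ Y ∈ g, X * Y - Y * X ∈ g)
    (ρ : G →* Matrix (Fin d) (Fin d) ℝ) (hρ : Topology.IsEmbedding ρ)
    (hr : Set.range ρ = NormedSpace.exp '' g)
    (Γ : Subgroup G) [CompactSpace (G ⧸ Γ)] (s : ℕ) (Gf : ℕ → Subgroup G) (hs : Gf (s + 1) = ⊥)
    (F : G ⧸ Γ → ℂ) (hF : Continuous F) (η : ℝ) (hη : 0 < η) :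
    ∃ C X₀ : ℝ, ∀ X ≥ X₀, ∀ H : ℝ, Real.log X ^ C ≤ H → H ≤ X →
      IntervalIntegrable (supSum Gf Γ F H) volume X (2 * X) ∧
        ∫ x in X..2 * X, supSum Gf Γ F H x ≤ η * (H * X) :=
  N.UT.finG N.all_Main g hu hb ρ hρ hr Γ hF (s + 1) (fun u : {u : ℤ → G // Adapted Gf u} => u.1)
    (fun u n => by
      have := u.2 (List.replicate (s + 1) 1) n
      rwa [List.length_replicate, hs, Subgroup.mem_bot] at this) hη

end Pool.Agent.Results.MP_028aa5_nt.NilLog
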