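import Pool.Agent.Lib.MP_028aa5_nt.Key

/-! Unweighted local uniformity for polynomial phases whose top coefficient lies in a compact
null set and avoids the rational numbers of small denominator. -/

namespace Pool.Agent.Results.MP_028aa5_nt.NullTop

open Finset MeasureTheory Polynomial Pool.Agent.Lib.MP_028aa5_nt

/-- The supremum of `|∑_{x < n ≤ x + H} f(n) e(P(n))|` over all real polynomials `P` of degree at
most `k` whose coefficient of degree `k` lies in `C`. -/
noncomputable def supSum (k : ℕ) (C : Set ℝ) (f : ℕ → ℂ) (H x : ℝ) : ℝ :=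
  ⨆ P : {P : ℝ[X] // P.natDegree ≤ k ∧ P.coeff k ∈ C},
    ‖∑ n ∈ Ioc ⌊x⌋₊ ⌊x + H⌋₊,
      f n * Complex.exp (2 * Real.pi * Complex.I * ((P.1.eval (n : ℝ) : ℝ) : ℂ))‖

lemma far {D : Set ℝ} (hD : IsCompact D) {Q : ℕ} (h : ∀ r : ℚ, r.den ≤ Q → (r : ℝ) ∉ D) :
    ∃ η > 0, ∀ α ∈ D, Far Q η α := by
  have h1 : IsClosed (⋃ q ∈ Set.Icc 1 Q, (fun α : ℝ => q * α) ⁻¹' Set.range ((↑) : ℤ → ℝ)) :=
    (Set.finite_Icc 1 Q).isClosed_biUnion fun q _ =>
      Int.isClosedEmbedding_coe_real.isClosed_range.preimage (by fun_prop)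
  obtain ⟨η, h2, h3⟩ := hD.exists_cthickening_subset_open h1.isOpen_compl fun α hα hc => by
    simp only [Set.mem_iUnion] at hc
    obtain ⟨q, ⟨q1, q2⟩, m, hm⟩ := hc
    have q0 : (q : ℝ) ≠ 0 := by positivity
    refine h (m / q) ((Nat.le_of_dvd q1 ?_).trans q2) (by
      rwa [Rat.cast_div, Rat.cast_intCast, Rat.cast_natCast, hm, mul_div_cancel_left₀ _ q0])
    have := Rat.den_dvd m q
    rw [Rat.divInt_eq_div, Int.cast_natCast] at this
    exact_mod_cast this
  refine ⟨η, h2, fun α hα q q1 q2 ⟨m, hm⟩ => ?_⟩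
  have q0 : (1 : ℝ) ≤ q := by exact_mod_cast q1
  refine h3 (Metric.mem_cthickening_of_dist_le (m / q : ℝ) α η D hα ?_)
    (Set.mem_iUnion₂.2 ⟨q, ⟨q1, q2⟩, m, by field_simp⟩)
  rw [dist_comm, Real.dist_eq, show α - m / q = (q * α - m) / q by field_simp, abs_div, Nat.abs_cast]
  exact (div_le_self (abs_nonneg _) q0).trans hm

lemma meas (k : ℕ) (D : Set ℝ) (f : ℕ → ℂ) (H : ℝ) : Measurable (supSum k D f H) := by
  have := (measurable_of_countable fun j : ℕ × ℕ =>
    ⨆ P : {P : ℝ[X] // P.natDegree ≤ k ∧ P.coeff k ∈ D}, ‖∑ n ∈ Ioc j.1 j.2,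
      f n * Complex.exp (2 * Real.pi * Complex.I * ((P.1.eval (n : ℝ) : ℝ) : ℂ))‖).comp (meas_kap H)
  unfold supSum
  simpa only [Function.comp_def, kap] using this

theorem result (k : ℕ) (hk : 1 ≤ k) (C : Set ℝ) (hC : IsCompact C) (h0 : volume C = 0)
    (ε : ℝ) (hε : 0 < ε) :
    ∃ Q : ℕ, ∀ D ⊆ C, IsClosed D → (∀ r : ℚ, r.den ≤ Q → (r : ℝ) ∉ D) →
      ∃ H₀ : ℝ, ∀ H ≥ H₀, ∀ X > 0, ∀ f : ℕ → ℂ,
        (∀ m n, 0 < m → 0 < n → f (m * n) = f m * f n) → (∀ n, ‖f n‖ ≤ 1) →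
        IntervalIntegrable (supSum k D f H) volume X (2 * X) ∧
          ∫ x in X..2 * X, supSum k D f H x ≤ ε * (H * X) := by
  obtain ⟨Q, hQ⟩ := key hk hC h0 (ε := min (ε / 3) 1) (by positivity) (min_le_right _ _)
  refine ⟨Q, fun D hD hD' h => ?_⟩
  obtain ⟨η, h1, h2⟩ := far (hC.of_isClosed_subset hD' hD) h
  obtain ⟨H0, h3⟩ := hQ η h1
  refine ⟨max H0 1, fun H hH X hX f hm hf => ?_⟩
  have H1 : 1 ≤ H := (le_max_right _ _).trans hH
  have h4 := h3 H ((le_max_left _ _).trans hH) X hX f hm hf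
  set δ := min (ε / 3) 1 with hδ
  have d0 : 0 < δ := by positivity
  set B := Gs X H {j | ∃ g α, PD k α g ∧ (α ∈ C ∧ Far Q η α) ∧
    δ * H ≤ ‖∑ n ∈ Ioc j.1 j.2, f n * e (g n)‖} with hB
  have mB : MeasurableSet B := meas_Gs _ _ _
  have hX2 : X ≤ 2 * X := by linarith
  have m1 := meas k D f H
  have n0 : ∀ x, 0 ≤ supSum k D f H x := fun x => Real.iSup_nonneg fun _ => norm_nonneg _
  have b1 : ∀ x ∈ Set.Icc X (2 * X), supSum k D f H x ≤ δ * H + B.indicator (fun _ => 2 * H) x :=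
    fun x hx => Real.iSup_le (fun P => by
      by_cases hb : x ∈ B
      · rw [Set.indicator_of_mem hb]
        refine le_add_of_nonneg_of_le (by positivity) ((norm_sum_le _ _).trans
          ((sum_le_card_nsmul _ _ 1 fun n _ => ?_).trans ?_))
        · exact (show ‖f n * e (P.1.eval (n : ℝ))‖ ≤ 1 by simpa using hf n)
        · have x0 : 0 ≤ x := hX.le.trans hx.1
          rw [Nat.card_Ioc, nsmul_eq_mul, mul_one,
            Nat.cast_sub (Nat.floor_le_floor (by linarith))]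
          linarith [Nat.lt_floor_add_one x, Nat.floor_le (show 0 ≤ x + H by linarith)]
      · rw [Set.indicator_of_notMem hb, add_zero]
        by_contra hc
        exact hb ⟨hx, _, _, PD.poly k P.1 P.2.1, ⟨hD P.2.2, h2 _ P.2.2⟩, (not_le.1 hc).le⟩)
      (add_nonneg (by positivity) (Set.indicator_nonneg (fun _ _ => by positivity) _))
  have i1 : IntegrableOn (B.indicator fun _ => 2 * H) (Set.Icc X (2 * X)) :=
    (integrableOn_const (by simp)).indicator mB
  have i2 : IntegrableOn (fun x => δ * H + B.indicator (fun _ => 2 * H) x) (Set.Icc X (2 * X)) :=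
    (integrableOn_const (by simp)).add i1
  have i3 : IntegrableOn (supSum k D f H) (Set.Icc X (2 * X)) :=
    i2.mono' m1.aestronglyMeasurable ((ae_restrict_mem measurableSet_Icc).mono fun x hx => by
      rw [Real.norm_of_nonneg (n0 x)]; exact b1 x hx)
  refine ⟨(intervalIntegrable_iff_integrableOn_Icc_of_le hX2).2 i3, ?_⟩
  rw [intervalIntegral.integral_of_le hX2, ← integral_Icc_eq_integral_Ioc]
  refine (setIntegral_mono_on i3 i2 measurableSet_Icc b1).trans ?_
  have i0 : IntegrableOn (fun _ => δ * H) (Set.Icc X (2 * X)) := integrableOn_const (by simp)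
  rw [integral_add i0 i1, setIntegral_indicator mB, setIntegral_const,
    setIntegral_const, Set.inter_eq_right.2 (show B ⊆ _ from Set.inter_subset_left),
    Real.volume_real_Icc_of_le hX2, smul_eq_mul, smul_eq_mul]
  have : δ * (H * X) ≤ ε / 3 * (H * X) := by gcongr; exact min_le_left _ _
  nlinarith

end Pool.Agent.Results.MP_028aa5_nt.NullTop
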